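import Pool.Agent.TH709.GG.Main
import Pool.Agent.TH709.GG.Sph8
import Pool.Agent.Y365.FS.Odd
import Pool.Agent.Y365.FS.Sph
import Pool.Agent.W497.CC.Sum
import Pool.Agent.W497.FS.Nice

/-!
# The Charney-Davis inequality for the classes of TH709
-/

set_option autoImplicit false
set_option linter.unusedSectionVars false

namespace Pool.Agent.V1174.CB

open Pool.Agent.W497.FS Pool.Agent.TH709.GG Polynomial

section

variable {α : Type} [DecidableEq α] {H : SimpleGraph α}

theorem cls_GT {d : ℕ} {W : Finset α} (h : Cls d α H W) : FP H W ∈ GT ⊤ d := by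
  have h1 := h.tm.mem ∅ ∅ (Finset.disjoint_empty_left _)
    (by rw [Finset.union_empty]; exact empty_mem_cl) d (by simp)
  rwa [D_empty, lkF_empty] at h1

/-- join factors of odd rank, of rank at most two, with few vertices, or with a nonnegative
gamma-vector -/
def Kg (H : SimpleGraph α) (W : Finset α) : Prop :=
  ∀ C ∈ comps H W, ∀ e, NP H e C →
    Odd e ∨ e ≤ 2 ∨ C.card ≤ 2 * e + 6 ∨ C.card ≤ 3 * e ∨ FP H C ∈ GT ⊤ e

theorem Kg.left {A B : Finset α} (hAB : Full H A B) (h : Kg H (A ∪ B)) : Kg H A :=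
  fun C hC => h C (by rw [comps_union hAB]; exact Finset.mem_union_left _ hC)

theorem Kg.right {A B : Finset α} (hAB : Full H A B) (h : Kg H (A ∪ B)) : Kg H B :=
  fun C hC => h C (by rw [comps_union hAB]; exact Finset.mem_union_right _ hC)

theorem Kg.cd {d : ℕ} {W : Finset α} (h : NP H d W) (hE : Eul H d W) (hK : Kg H W)
    (n : ℕ) (hn : d = 2 * n) : 0 ≤ (-1) ^ n * lam H W := by
  revert hK
  refine join_induction' (H := H) (P := fun d W => ∀ (n : ℕ) (_ : d = 2 * n), Kg H W →
    0 ≤ (-1) ^ n * lam H W) ?_ ?_ ?_ h hE n hn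
  · intro n hn _
    obtain rfl : n = 0 := by omega
    rw [lam_empty]; norm_num
  · intro d W h hE hp _ n hn hK
    have hG : FP H W ∈ GT ⊤ (d + 1) := by
      rcases hK W (by rw [comps_prm hp]; exact Finset.mem_singleton_self W) (d + 1) h
        with h' | h' | h' | h' | h'
      · exfalso
        rw [hn] at h'
        exact (Nat.not_even_iff_odd.2 h') (even_two_mul n)
      · exact GT_of_lt (t := 2) (by omega) ⊤ (FP_mem_two h hE)
      · exact gal_few stmF stmF2 h hE (by omega)
      · refine gal_defect_le_one stmDel h hE ?_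
        rw [comps_prm hp, Finset.card_singleton]
        omega
      · exact h'
    rw [hn] at hG
    exact lam_nonneg_of_GT hG
  · intro d₁ d₂ A B hA hB eA eB _ hAB h1 h2 n hn hK
    rw [lam_join hAB]
    rcases Nat.even_or_odd (d₁ + 1) with ho | ho
    · obtain ⟨a, ha⟩ := ho
      obtain ⟨b, hb⟩ : ∃ b, d₂ + 1 = 2 * b := ⟨n - a, by omega⟩
      have k1 := h1 a (by omega) (hK.left hAB)
      have k2 := h2 b hb (hK.right hAB)
      have hmab : n = a + b := by omega
      rw [hmab, pow_add]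
      have : (-1 : ℚ) ^ a * (-1) ^ b * (lam H A * lam H B)
          = ((-1) ^ a * lam H A) * ((-1) ^ b * lam H B) := by ring
      rw [this]
      exact mul_nonneg k1 k2
    · rw [lam_odd eA ho]
      simp

end

variable {k : Type} [Field k] {n : ℕ} {S : Finset (Finset (Fin n))}

/-- Charney-Davis: conditions on the join factors, with the class -/
theorem cd_factors {m : ℕ} (h : IsFlagSphere k (2 * m) S)
    (hC : ∀ C, IsFactor S C → (∃ G ∈ S, G.card = 2 * m ∧ Odd (G ∩ C).card) ∨
      (∀ F ∈ S, F ⊆ C → F.card ≤ 2) ∨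
      ∃ F ∈ S, F ⊆ C ∧ (C.card ≤ max (2 * F.card + 6) (3 * F.card) ∨
        Cls F.card (Fin n) (skel S) C)) :
    0 ≤ (-1) ^ m * omega S := by
  rw [h.omega_eq]
  refine Kg.cd h.np h.eul ?_ m rfl
  intro C hCc e he
  rcases hC C (mem_comps_iff.1 hCc) with ⟨G, hG, hGc, hodd⟩ | h1 | ⟨F, hF, hFC, h2 | h2⟩
  · left
    obtain ⟨e', f, hef, hC1, hC2, hfull, hun⟩ := Y365.FS.split_comp h.np hCc
    obtain rfl := hC1.rank_unique he
    have hG' : G ∈ cl (skel S) (vert S) := by rw [h.cl_eq]; exact hG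
    have hGv := (mem_cl.1 hG').1
    have g1 : G ∩ C ∈ cl (skel S) C := mem_cl.2 ⟨Finset.inter_subset_right, fun x hx y hy hxy =>
      (mem_cl.1 hG').2 x (Finset.mem_inter.1 hx).1 y (Finset.mem_inter.1 hy).1 hxy⟩
    have g2 : G \ C ∈ cl (skel S) (vert S \ C) := mem_cl.2
      ⟨Finset.sdiff_subset_sdiff hGv (Finset.Subset.refl C), fun x hx y hy hxy =>
      (mem_cl.1 hG').2 x (Finset.mem_sdiff.1 hx).1 y (Finset.mem_sdiff.1 hy).1 hxy⟩
    have c1 := hC1.card_le g1
    have c2 := hC2.card_le g2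
    have c3 := Finset.card_inter_add_card_sdiff G C
    have c4 : (G ∩ C).card = e' := by omega
    rw [← c4]
    exact hodd
  · obtain ⟨β, hβ, hβc, -⟩ := he.exists_facet
    obtain ⟨hβS, hβC⟩ := Y365.FS.face_of_cl h hCc hβ
    right; left
    rw [← hβc]
    exact h1 β hβS hβC
  · have h3 := he.card_le (Y365.FS.cl_of_face h hF hFC)
    right; right
    rcases le_max_iff.1 h2 with h4 | h4
    · left; omega
    · right; left; omega
  · right; right; right; right
    have h3 := he.card_le (Y365.FS.cl_of_face h hF hFC)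
    obtain ⟨β, hβ, hβc, -⟩ := he.exists_facet
    have h4 := h2.tm.le β hβ
    have h5 : e = F.card := by omega
    rw [h5]
    exact cls_GT h2

/-- the gamma-vector of a flag sphere and the Charney-Davis quantity -/
theorem cd_gamma {m : ℕ} (h : IsFlagSphere k (2 * m) S) {γ : ℕ → ℤ} (hγ : IsGamma (2 * m) S γ)
    (h0 : 0 ≤ γ m) : 0 ≤ (-1) ^ m * omega S := by
  obtain ⟨a, ha⟩ := F3.ep_FP_exp (F3.ep_of_np h.np h.eul) (σ := ∅) empty_mem_cl
  rw [lkF_empty, Finset.card_empty, Nat.sub_zero] at ha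
  have h1 := h.gamma_eq hγ ha m (by omega)
  rw [h.omega_eq, ← aeval_FP, ha, aeval_even, ← h1]
  have h2 : (-1 : ℚ) ^ m * (γ m * (-1 / 4) ^ m) = γ m * (1 / 4) ^ m := by
    rw [← neg_pow_quarter m]; ring
  rw [h2]
  have h3 : (0 : ℚ) ≤ γ m := by exact_mod_cast h0
  positivity

/-- the criterion with far tetrahedra -/
def Tetra (d : ℕ) {n : ℕ} (S : Finset (Finset (Fin n))) : Prop :=
  (∀ F ∈ S, F.card + 4 = d → 5 * ((link S F).filter (fun G => G.card = 1)).card ≤
    ((link S F).filter (fun G => G.card = 2)).card + 16) ∧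
  ∃ P : Finset (Fin n) → Finset (Fin n) → Prop, P ∅ ∅ ∧
    ∀ F ∈ S, ∀ T ∈ link S F, P F T → F.card + 5 ≤ d → (T = ∅ → F.card + 6 ≤ d) →
      ∃ v, insert v T ∈ link S F ∧ (∀ G, IsFar (link S F) v G → G.card ≤ 3) ∧
        (v ∉ T → P (insert v F) T) ∧ ((T = ∅ → F.card + 7 ≠ d) →
        (∀ E, IsFar (link S F) v E → E.card = 2 →
          P (F ∪ E) (T.filter (fun x => insert x (F ∪ E) ∈ S))) ∧
        (∀ R, IsFar (link S F) v R → R.card = 3 → ∀ t ∈ R,
          P (F ∪ R.erase t) (insert t (T.filter (fun x => insert x (F ∪ R) ∈ S)))))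

theorem cd_tetra {m : ℕ} (h : IsFlagSphere k (2 * m) S) (hT : Tetra (2 * m) S) :
    0 ≤ (-1) ^ m * omega S := by
  classical
  obtain ⟨h4, P, hP0, hP⟩ := hT
  have hex := F3.exists_g h
  have hempty : (∅ : Finset (Fin n)) ∈ S := by
    rw [← h.cl_eq]; exact empty_mem_cl
  have hlink : link S ∅ = S := by
    ext G
    rw [link, Finset.mem_filter]
    simp
  let g : Finset (Fin n) → ℕ → ℤ := fun F => if hF : F ∈ S then (hex F hF).choose else 0
  have hg : ∀ F ∈ S, IsGamma (2 * m - F.card) (link S F) (g F) ∧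
      ∀ i, 2 * m < 2 * i + F.card → g F i = 0 := by
    intro F hF
    have hgF : g F = (hex F hF).choose := dif_pos hF
    rw [hgF]
    exact (hex F hF).choose_spec
  have h5 := F3.sphereQ h hg h4 P
    (fun F hF T hT h1 h2 h3 => Or.inr (hP F hF T hT h1 h2 h3))
    ∅ hempty ∅ (by rw [hlink]; exact hempty) hP0 m
  rw [Finset.powerset_empty, Finset.sum_singleton, Finset.card_empty, pow_zero, one_mul,
    Finset.union_empty] at h5
  have h6 := (hg ∅ hempty).1
  rw [hlink, Finset.card_empty, Nat.sub_zero] at h6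
  exact cd_gamma h h6 h5

end Pool.Agent.V1174.CB
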